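import Pool.Agent.Q221.FibProd.Lists

set_option autoImplicit false

/-!
# From free semigroups to lists
-/

namespace Pool.Agent.Q221.FibProd

theorem word_ne_nil {k : ℕ} (u : FreeSemigroup (Fin k)) : word u ≠ [] := by simp [word]

theorem word_mul {k : ℕ} (u v : FreeSemigroup (Fin k)) : word (u * v) = word u ++ word v := by
  simp [word]

theorem word_lt {k : ℕ} (u : FreeSemigroup (Fin k)) : ∀ i ∈ word u, i < k := by
  intro i hi
  rw [word, List.mem_map] at hi
  obtain ⟨j, -, rfl⟩ := hi
  exact j.2

theorem word_injective {k : ℕ} : Function.Injective (word (k := k)) := by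
  rintro ⟨a, l⟩ ⟨b, l'⟩ h
  have h := List.map_injective_iff.2 Fin.val_injective h
  simp only [List.cons.injEq] at h
  obtain ⟨rfl, rfl⟩ := h
  rfl

theorem exists_word {k : ℕ} (l : List ℕ) (h0 : l ≠ []) (h : ∀ i ∈ l, i < k) :
    ∃ u : FreeSemigroup (Fin k), word u = l := by
  rcases l with _ | ⟨a, l⟩
  · exact absurd rfl h0
  · refine ⟨⟨⟨a, h a List.mem_cons_self⟩,
      l.attach.map fun i => ⟨i.1, h i.1 (List.mem_cons_of_mem _ i.2)⟩⟩, ?_⟩
    simp [word, Function.comp_def]

theorem word_of {k : ℕ} (i : Fin k) : word (FreeSemigroup.of i) = [i.val] := rfl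

/-- The valid generating pairs of a code. -/
def valid (p : List ℕ × List ℕ) (c : ℕ × ℕ) : Prop :=
  p.1 ≠ [] ∧ p.2 ≠ [] ∧ (∀ i ∈ p.1, i < c.1 + 1) ∧ (∀ i ∈ p.2, i < c.2 + 1)

instance (p : List ℕ × List ℕ) (c : ℕ × ℕ) : Decidable (valid p c) := by
  unfold valid
  infer_instance

/-- The cleaned list of generating pairs. -/
def clean (c : Code) : List (List ℕ × List ℕ) := c.2.filter fun p => valid p c.1

theorem mem_clean {c : Code} {a b : List ℕ} : (a, b) ∈ clean c ↔ (a, b) ∈ c.2 ∧ valid (a, b) c.1 := by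
  simp [clean]

theorem clean_clean (c : Code) : Clean c.1.1 c.1.2 (clean c) := by
  intro a b h
  exact (mem_clean.1 h).2

theorem valid_word (c : ℕ × ℕ) (u : FreeSemigroup (Fin (c.1 + 1)))
    (v : FreeSemigroup (Fin (c.2 + 1))) : valid (word u, word v) c :=
  ⟨word_ne_nil u, word_ne_nil v, word_lt u, word_lt v⟩

theorem mem_sg {c : Code} {u : FreeSemigroup (Fin (c.1.1 + 1))}
    {v : FreeSemigroup (Fin (c.1.2 + 1))} : (u, v) ∈ sg c ↔ M (clean c) (word u) (word v) := by
  constructor
  · intro h
    have key : ∀ p ∈ sg c, M (clean c) (word p.1) (word p.2) := by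
      intro p hp
      refine Subsemigroup.closure_induction (p := fun p _ => M (clean c) (word p.1) (word p.2))
        ?_ ?_ hp
      · intro p hp
        exact M.single (mem_clean.2 ⟨hp, valid_word c.1 p.1 p.2⟩)
      · intro p q _ _ h1 h2
        rw [Prod.fst_mul, Prod.snd_mul, word_mul, word_mul]
        exact h1.append h2
    exact key _ h
  · intro h
    have key : ∀ a b, M (clean c) a b → ∀ u : FreeSemigroup (Fin (c.1.1 + 1)),
        ∀ v : FreeSemigroup (Fin (c.1.2 + 1)), a = word u → b = word v → (u, v) ∈ sg c := by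
      intro a b h
      induction h with
      | nil => intro u v h; exact absurd h.symm (word_ne_nil u)
      | @cons a b x y hab hm ih =>
        intro u v h1 h2
        have hab' := mem_clean.1 hab
        obtain ⟨hv1, hv2, hv3, hv4⟩ := hab'.2
        obtain ⟨u0, hu0⟩ := exists_word a hv1 hv3
        obtain ⟨v0, hv0⟩ := exists_word b hv2 hv4
        have h0 : (u0, v0) ∈ sg c := by
          refine Subsemigroup.subset_closure ?_
          change (word u0, word v0) ∈ c.2
          rw [hu0, hv0]
          exact hab'.1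
        obtain ⟨w1, w2, w3⟩ := hm.valid (clean_clean c)
        by_cases hx : x = []
        · have hy := w3.1 hx
          subst hx hy
          rw [List.append_nil] at h1 h2
          have e1 := word_injective (hu0.trans h1)
          have e2 := word_injective (hv0.trans h2)
          rw [← e1, ← e2]
          exact h0
        · have hy : y ≠ [] := fun h => hx (w3.2 h)
          obtain ⟨u1, hu1⟩ := exists_word x hx w1
          obtain ⟨v1, hv1'⟩ := exists_word y hy w2
          have e1 : u = u0 * u1 := word_injective (by rw [word_mul, hu0, hu1, h1])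
          have e2 : v = v0 * v1 := word_injective (by rw [word_mul, hv0, hv1', h2])
          rw [e1, e2]
          exact (sg c).mul_mem h0 (ih u1 v1 hu1.symm hv1'.symm)
    exact key _ _ h u v rfl rfl

theorem difun_iff {c : Code} : Difun (sg c) ↔ LDifun (clean c) := by
  constructor
  · intro h u v u' v' hu h1 hu' h2 h3
    obtain ⟨a1, a2, a3⟩ := h1.valid (clean_clean c)
    obtain ⟨b1, b2, b3⟩ := h3.valid (clean_clean c)
    obtain ⟨x, rfl⟩ := exists_word u hu a1
    obtain ⟨y, rfl⟩ := exists_word v (fun h => hu (a3.2 h)) a2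
    obtain ⟨x', rfl⟩ := exists_word u' hu' b1
    obtain ⟨y', rfl⟩ := exists_word v' (fun h => hu' (b3.2 h)) b2
    rw [← mem_sg] at h1 h2 h3 ⊢
    exact h _ _ _ _ h1 h2 h3
  · intro h u v u' v' h1 h2 h3
    rw [mem_sg] at h1 h2 h3 ⊢
    exact h _ _ _ _ (word_ne_nil u) h1 (word_ne_nil u') h2 h3

theorem letter_aux {V : List (List ℕ × List ℕ)} {m n : ℕ} (hV : Clean m n V) {u v : List ℕ}
    (h : M V u v) : (∀ i, u = [i] → ∃ p ∈ V, p.1 = [i]) ∧ (∀ i, v = [i] → ∃ p ∈ V, p.2 = [i]) := by
  cases h with
  | nil => simp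
  | @cons a b u v hab hm =>
    obtain ⟨h1, h2, -, -⟩ := hV _ _ hab
    constructor
    · intro i hi
      rcases a with _ | ⟨j, a⟩
      · exact absurd rfl h1
      · simp only [List.cons_append, List.cons.injEq, List.append_eq_nil_iff] at hi
        obtain ⟨rfl, rfl, -⟩ := hi
        exact ⟨_, hab, rfl⟩
    · intro i hi
      rcases b with _ | ⟨j, b⟩
      · exact absurd rfl h2
      · simp only [List.cons_append, List.cons.injEq, List.append_eq_nil_iff] at hi
        obtain ⟨rfl, rfl, -⟩ := hi
        exact ⟨_, hab, rfl⟩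

theorem subdirect_iff {c : Code} : IsSubdirect (sg c) ↔ Letters c.1.1 c.1.2 (clean c) := by
  constructor
  · rintro ⟨h1, h2⟩
    constructor
    · intro i hi
      obtain ⟨v, hv⟩ := h1 (FreeSemigroup.of ⟨i, hi⟩)
      rw [mem_sg, word_of] at hv
      exact (letter_aux (clean_clean c) hv).1 i rfl
    · intro i hi
      obtain ⟨v, hv⟩ := h2 (FreeSemigroup.of ⟨i, hi⟩)
      rw [mem_sg, word_of] at hv
      exact (letter_aux (clean_clean c) hv).2 i rfl
  · intro h
    constructor
    · intro u
      obtain ⟨v, hv⟩ := exists_right h (word u) (word_lt u)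
      obtain ⟨a1, a2, a3⟩ := hv.valid (clean_clean c)
      obtain ⟨y, rfl⟩ := exists_word v (fun h => word_ne_nil u (a3.2 h)) a2
      exact ⟨y, mem_sg.2 hv⟩
    · intro v
      obtain ⟨β, -, -, hβ⟩ := exists_left h
      obtain ⟨hu, -⟩ := hβ (word v) (word_lt v)
      obtain ⟨a1, a2, a3⟩ := hu.valid (clean_clean c)
      obtain ⟨y, hy⟩ := exists_word _ (fun h => word_ne_nil v (a3.1 h)) a1
      exact ⟨y, mem_sg.2 (hy ▸ hu)⟩

/-- The combinatorial decision procedure. -/
theorem fiber_iff {c : Code} (h : IsSubdirect (sg c)) :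
    IsFiberProduct (sg c) ↔ Check (clean c) (bnd (clean c)) := by
  rw [isFiberProduct_iff h, difun_iff]
  exact ⟨fun h' => check_of_difun (clean_clean c) h' _,
    fun h' => difun_of_check (clean_clean c) (subdirect_iff.1 h) le_rfl h'⟩

end Pool.Agent.Q221.FibProd
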