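import Pool.Agent.Q221.FibProd.Bridge

set_option autoImplicit false

/-!
# The decision procedure is primitive recursive
-/

namespace Pool.Agent.Q221.FibProd

open Primrec

abbrev W := List ℕ × List ℕ

theorem prim_lt_list : PrimrecRel fun (l : List ℕ) (k : ℕ) => ∀ i ∈ l, i < k + 1 :=
  PrimrecRel.forall_mem_list (R := fun i k => i < k + 1)
    (Primrec.nat_lt.comp Primrec.fst (Primrec.succ.comp Primrec.snd))

theorem prim_ne_nil : PrimrecPred fun l : List ℕ => l ≠ [] :=
  (Primrec.eq.comp Primrec.id (Primrec.const [])).not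

theorem prim_valid : PrimrecRel valid := by
  have h1 : PrimrecPred fun x : W × (ℕ × ℕ) => x.1.1 ≠ [] :=
    prim_ne_nil.comp (Primrec.fst.comp Primrec.fst)
  have h2 : PrimrecPred fun x : W × (ℕ × ℕ) => x.1.2 ≠ [] :=
    prim_ne_nil.comp (Primrec.snd.comp Primrec.fst)
  have h3 : PrimrecPred fun x : W × (ℕ × ℕ) => ∀ i ∈ x.1.1, i < x.2.1 + 1 :=
    prim_lt_list.comp (Primrec.fst.comp Primrec.fst) (Primrec.fst.comp Primrec.snd)
  have h4 : PrimrecPred fun x : W × (ℕ × ℕ) => ∀ i ∈ x.1.2, i < x.2.2 + 1 :=
    prim_lt_list.comp (Primrec.snd.comp Primrec.fst) (Primrec.snd.comp Primrec.snd)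
  exact (h1.and (h2.and (h3.and h4))).of_eq fun x => Iff.rfl

theorem prim_clean : Primrec clean :=
  (PrimrecRel.listFilter prim_valid).comp Primrec.snd Primrec.fst

theorem prim_wt : Primrec wt := by
  unfold wt
  refine Primrec.list_foldr (f := fun V : List W => V) (g := fun _ : List W => 0)
    (h := fun (_ : List W) (p : W × ℕ) => (p.1.1.length + p.1.2.length) + p.2)
    Primrec.id (Primrec.const 0) ?_
  have h : Primrec fun x : List W × (W × ℕ) =>
      (x.2.1.1.length + x.2.1.2.length) + x.2.2 := by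
    refine Primrec.nat_add.comp ?_ (Primrec.snd.comp Primrec.snd)
    exact Primrec.nat_add.comp
      (Primrec.list_length.comp (Primrec.fst.comp (Primrec.fst.comp Primrec.snd)))
      (Primrec.list_length.comp (Primrec.snd.comp (Primrec.fst.comp Primrec.snd)))
  exact h

theorem prim_bnd : Primrec bnd :=
  Primrec.nat_add.comp (Primrec.nat_mul.comp (Primrec.const 3) prim_wt)
    (Primrec.nat_mul.comp prim_wt prim_wt)

theorem prim_prods : Primrec₂ prods := by
  have h : Primrec₂ fun (V : List W) (k : ℕ) => (Nat.rec V (fun _ P => V ++ V.flatMap fun x =>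
      P.map fun g => (x.1 ++ g.1, x.2 ++ g.2)) k : List W) := by
    refine Primrec.nat_rec (f := fun V : List W => V) (g := fun (V : List W) (p : ℕ × List W) =>
      V ++ V.flatMap fun x => p.2.map fun g => (x.1 ++ g.1, x.2 ++ g.2)) Primrec.id ?_
    refine Primrec.list_append.comp Primrec.fst ?_
    refine Primrec.list_flatMap Primrec.fst ?_
    refine Primrec.list_map (f := fun x : (List W × (ℕ × List W)) × W => x.1.2.2)
      (g := fun (x : (List W × (ℕ × List W)) × W) (g : W) => (x.2.1 ++ g.1, x.2.2 ++ g.2))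
      (Primrec.snd.comp (Primrec.snd.comp Primrec.fst)) ?_
    refine Primrec.pair ?_ ?_
    · exact Primrec.list_append.comp (Primrec.fst.comp (Primrec.snd.comp Primrec.fst))
        (Primrec.fst.comp Primrec.snd)
    · exact Primrec.list_append.comp (Primrec.snd.comp (Primrec.snd.comp Primrec.fst))
        (Primrec.snd.comp Primrec.snd)
  refine h.of_eq fun V k => ?_
  induction k with
  | zero => rfl
  | succ k ih =>
    simp only [prods]
    rw [← ih]

theorem prim_letters : PrimrecPred fun c : Code => Letters c.1.1 c.1.2 (clean c) := by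
  have hex1 : PrimrecRel fun (i : ℕ) (V : List W) => ∃ p ∈ V, p.1 = [i] := by
    have h : PrimrecRel fun (V : List W) (i : ℕ) => ∃ p ∈ V, p.1 = [i] := by
      refine PrimrecRel.exists_mem_list (R := fun (p : W) (i : ℕ) => p.1 = [i]) ?_
      exact Primrec.eq.comp (Primrec.fst.comp Primrec.fst)
        (Primrec.list_cons.comp Primrec.snd (Primrec.const []))
    exact h.comp Primrec.snd Primrec.fst
  have hex2 : PrimrecRel fun (i : ℕ) (V : List W) => ∃ p ∈ V, p.2 = [i] := by
    have h : PrimrecRel fun (V : List W) (i : ℕ) => ∃ p ∈ V, p.2 = [i] := by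
      refine PrimrecRel.exists_mem_list (R := fun (p : W) (i : ℕ) => p.2 = [i]) ?_
      exact Primrec.eq.comp (Primrec.snd.comp Primrec.fst)
        (Primrec.list_cons.comp Primrec.snd (Primrec.const []))
    exact h.comp Primrec.snd Primrec.fst
  have h1 : PrimrecPred fun c : Code => ∀ i ∈ List.range (c.1.1 + 1),
      ∃ p ∈ clean c, p.1 = [i] :=
    (PrimrecRel.forall_mem_list hex1).comp
      (Primrec.list_range.comp (Primrec.succ.comp (Primrec.fst.comp Primrec.fst))) prim_clean
  have h2 : PrimrecPred fun c : Code => ∀ i ∈ List.range (c.1.2 + 1),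
      ∃ p ∈ clean c, p.2 = [i] :=
    (PrimrecRel.forall_mem_list hex2).comp
      (Primrec.list_range.comp (Primrec.succ.comp (Primrec.snd.comp Primrec.fst))) prim_clean
  refine (h1.and h2).of_eq fun c => ?_
  simp [Letters]

theorem prim_check : PrimrecPred fun c : Code => Check (clean c) (bnd (clean c)) := by
  have r1 : PrimrecRel fun (s : W) (x : W × (W × W)) =>
      s = (x.1.1, x.2.2.2) := by
    refine Primrec.eq.comp Primrec.fst ?_
    exact Primrec.pair (Primrec.fst.comp (Primrec.fst.comp Primrec.snd))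
      (Primrec.snd.comp (Primrec.snd.comp (Primrec.snd.comp Primrec.snd)))
  have r2 : PrimrecRel fun (P : List W) (x : W × (W × W)) => ∃ s ∈ P, s = (x.1.1, x.2.2.2) :=
    PrimrecRel.exists_mem_list r1
  -- r, then (q, p, P')
  have r3 : PrimrecRel fun (r : W) (x : W × (W × List W)) =>
      ¬ (x.2.1.2 = x.1.2) ∨ ¬ (x.1.1 = r.1) ∨ ∃ s ∈ x.2.2, s = (x.2.1.1, r.2) := by
    have a1 : PrimrecPred fun y : W × (W × (W × List W)) => y.2.2.1.2 = y.2.1.2 :=
      Primrec.eq.comp
        (Primrec.snd.comp (Primrec.fst.comp (Primrec.snd.comp Primrec.snd)))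
        (Primrec.snd.comp (Primrec.fst.comp Primrec.snd))
    have a2 : PrimrecPred fun y : W × (W × (W × List W)) => y.2.1.1 = y.1.1 :=
      Primrec.eq.comp (Primrec.fst.comp (Primrec.fst.comp Primrec.snd))
        (Primrec.fst.comp Primrec.fst)
    have a3 : PrimrecPred fun y : W × (W × (W × List W)) =>
        ∃ s ∈ y.2.2.2, s = (y.2.2.1.1, y.1.2) :=
      r2.comp (Primrec.snd.comp (Primrec.snd.comp Primrec.snd))
        (g := fun y : W × (W × (W × List W)) => (y.2.2.1, (y.1, y.1)))
        (Primrec.pair (Primrec.fst.comp (Primrec.snd.comp Primrec.snd))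
          (Primrec.pair Primrec.fst Primrec.fst))
    exact (a1.not.or (a2.not.or a3)).of_eq fun y => Iff.rfl
  have r4 := PrimrecRel.forall_mem_list r3
  -- q, then (p, P', P)
  have r5 : PrimrecRel fun (q : W) (x : W × (List W × List W)) =>
      ∀ r ∈ x.2.2, ¬ (x.1.2 = q.2) ∨ ¬ (q.1 = r.1) ∨ ∃ s ∈ x.2.1, s = (x.1.1, r.2) :=
    r4.comp (Primrec.snd.comp (Primrec.snd.comp Primrec.snd))
      (g := fun y : W × (W × (List W × List W)) => (y.1, (y.2.1, y.2.2.1)))
      (Primrec.pair Primrec.fst (Primrec.pair (Primrec.fst.comp Primrec.snd)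
        (Primrec.fst.comp (Primrec.snd.comp Primrec.snd))))
  have r6 := PrimrecRel.forall_mem_list r5
  -- p, then (P', P)
  have r7 : PrimrecRel fun (p : W) (x : List W × List W) =>
      ∀ q ∈ x.2, ∀ r ∈ x.2, ¬ (p.2 = q.2) ∨ ¬ (q.1 = r.1) ∨ ∃ s ∈ x.1, s = (p.1, r.2) :=
    r6.comp (Primrec.snd.comp Primrec.snd)
      (g := fun y : W × (List W × List W) => (y.1, y.2)) (Primrec.pair Primrec.fst Primrec.snd)
  have r8 := PrimrecRel.forall_mem_list r7
  have hP : Primrec fun c : Code => prods (clean c) (bnd (clean c)) :=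
    prim_prods.comp prim_clean (prim_bnd.comp prim_clean)
  have hP' : Primrec fun c : Code =>
      prods (clean c) (bnd (clean c) * wt (clean c) + wt (clean c)) :=
    prim_prods.comp prim_clean (Primrec.nat_add.comp
      (Primrec.nat_mul.comp (prim_bnd.comp prim_clean) (prim_wt.comp prim_clean))
      (prim_wt.comp prim_clean))
  refine (r8.comp hP (Primrec.pair hP' hP)).of_eq fun c => ?_
  simp only [Check]
  refine forall₂_congr fun p _ => forall₂_congr fun q _ => forall₂_congr fun r _ => ?_
  tauto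

theorem computable_of_prim {α : Type*} [Primcodable α] {p : α → Prop} (h : PrimrecPred p) :
    ComputablePred p := by
  obtain ⟨hd, h⟩ := h
  exact ⟨hd, h.to_comp⟩

theorem computable_subdirect : ComputablePred fun c : Code => IsSubdirect (sg c) :=
  (computable_of_prim prim_letters).of_eq fun _ => subdirect_iff.symm

theorem computable_both :
    ComputablePred fun c : Code => IsSubdirect (sg c) ∧ IsFiberProduct (sg c) := by
  refine (computable_of_prim (prim_letters.and prim_check)).of_eq fun c => ?_
  rw [← subdirect_iff]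
  exact and_congr_right fun h => (fiber_iff h).symm

end Pool.Agent.Q221.FibProd
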