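import Mathlib

set_option autoImplicit false

/-!
# Subdirect products of free semigroups given by finite sets of generating pairs

`A⁺` is Mathlib's `FreeSemigroup A`. A code `((m, n), L)` describes the finite nonempty alphabets
`Fin (m + 1)` and `Fin (n + 1)` and the finite set of all pairs of nonempty words over these
alphabets that are listed in `L` (words are written as lists of natural numbers; entries of `L`
that are not pairs of nonempty words over the two alphabets are ignored).
-/

namespace Pool.Agent.Q221.FibProd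

/-- The word `u ∈ (Fin k)⁺` written as a list of natural numbers. -/
def word {k : ℕ} (u : FreeSemigroup (Fin k)) : List ℕ := (u.head :: u.tail).map Fin.val

/-- Codes of instances. -/
abbrev Code := (ℕ × ℕ) × List (List ℕ × List ℕ)

/-- The finite set of generating pairs described by a code. -/
def gens (c : Code) :
    Set (FreeSemigroup (Fin (c.1.1 + 1)) × FreeSemigroup (Fin (c.1.2 + 1))) :=
  {p | (word p.1, word p.2) ∈ c.2}

/-- The subsemigroup of `A⁺ × B⁺` generated by the pairs described by a code. -/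
def sg (c : Code) :
    Subsemigroup (FreeSemigroup (Fin (c.1.1 + 1)) × FreeSemigroup (Fin (c.1.2 + 1))) :=
  Subsemigroup.closure (gens c)

/-- Subdirect products: both coordinate projections are surjective. -/
def IsSubdirect {A B : Type} (S : Subsemigroup (FreeSemigroup A × FreeSemigroup B)) : Prop :=
  (∀ u, ∃ v, (u, v) ∈ S) ∧ (∀ v, ∃ u, (u, v) ∈ S)

/-- Fiber products of two free semigroups over some semigroup `Q`. -/
def IsFiberProduct {A B : Type} (S : Subsemigroup (FreeSemigroup A × FreeSemigroup B)) : Prop :=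
  ∃ (Q : Type) (_ : Semigroup Q) (φ : FreeSemigroup A →ₙ* Q) (ψ : FreeSemigroup B →ₙ* Q),
    Function.Surjective φ ∧ Function.Surjective ψ ∧ ∀ u v, (u, v) ∈ S ↔ φ u = ψ v

/-! ### Fiber products are the difunctional subdirect products -/

/-- Difunctionality. -/
def Difun {A B : Type} (S : Subsemigroup (FreeSemigroup A × FreeSemigroup B)) : Prop :=
  ∀ u v u' v', (u, v) ∈ S → (u', v) ∈ S → (u', v') ∈ S → (u, v') ∈ S

theorem IsFiberProduct.difun {A B : Type} {S : Subsemigroup (FreeSemigroup A × FreeSemigroup B)}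
    (h : IsFiberProduct S) : Difun S := by
  obtain ⟨Q, _, φ, ψ, -, -, h⟩ := h
  intro u v u' v' h1 h2 h3
  rw [h] at h1 h2 h3 ⊢
  rw [h1, ← h2, h3]

theorem Difun.isFiberProduct {A B : Type} {S : Subsemigroup (FreeSemigroup A × FreeSemigroup B)}
    (h : Difun S) (hs : IsSubdirect S) : IsFiberProduct S := by
  obtain ⟨hs1, hs2⟩ := hs
  let θ : Con (FreeSemigroup A) :=
    { r := fun u u' => ∃ v, (u, v) ∈ S ∧ (u', v) ∈ S
      iseqv :=
        { refl := fun u => by
            obtain ⟨v, hv⟩ := hs1 u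
            exact ⟨v, hv, hv⟩
          symm := by
            rintro u u' ⟨v, h1, h2⟩
            exact ⟨v, h2, h1⟩
          trans := by
            rintro u u' u'' ⟨v, h1, h2⟩ ⟨v', h3, h4⟩
            exact ⟨v', h _ _ _ _ h1 h2 h3, h4⟩ }
      mul' := by
        rintro w x y z ⟨v, h1, h2⟩ ⟨v', h3, h4⟩
        exact ⟨v * v', S.mul_mem h1 h3, S.mul_mem h2 h4⟩ }
  have hθ : ∀ {u u'}, θ u u' ↔ ∃ v, (u, v) ∈ S ∧ (u', v) ∈ S := fun {u u'} => Iff.rfl
  choose b hb using hs2
  let φ : FreeSemigroup A →ₙ* θ.Quotient :=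
    { toFun := fun u => (u : θ.Quotient)
      map_mul' := fun u u' => rfl }
  have hφ : ∀ {u u'}, φ u = φ u' ↔ θ u u' := fun {u u'} => θ.eq
  let ψ : FreeSemigroup B →ₙ* θ.Quotient :=
    { toFun := fun v => φ (b v)
      map_mul' := fun v v' => by
        rw [← map_mul, hφ]
        exact ⟨v * v', hb _, S.mul_mem (hb v) (hb v')⟩ }
  have hψ : ∀ v, ψ v = φ (b v) := fun v => rfl
  refine ⟨θ.Quotient, inferInstance, φ, ψ, ?_, ?_, ?_⟩
  · intro q
    obtain ⟨u, rfl⟩ := Quotient.exists_rep q
    exact ⟨u, rfl⟩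
  · intro q
    obtain ⟨u, rfl⟩ := Quotient.exists_rep q
    obtain ⟨v, hv⟩ := hs1 u
    refine ⟨v, ?_⟩
    rw [hψ]
    exact hφ.2 ⟨v, hb v, hv⟩
  · intro u v
    rw [hψ, hφ, hθ]
    constructor
    · intro huv
      exact ⟨v, huv, hb v⟩
    · rintro ⟨v', h1, h2⟩
      exact h _ _ _ _ h1 h2 (hb v)

theorem isFiberProduct_iff {A B : Type} {S : Subsemigroup (FreeSemigroup A × FreeSemigroup B)}
    (hs : IsSubdirect S) : IsFiberProduct S ↔ Difun S :=
  ⟨fun h => h.difun, fun h => h.isFiberProduct hs⟩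

end Pool.Agent.Q221.FibProd
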