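import Pool.Agent.Q221.FibProd.Def

set_option autoImplicit false

/-!
# The combinatorial criterion, for pairs of lists
-/

namespace Pool.Agent.Q221.FibProd

/-- The submonoid of `ℕ* × ℕ*` generated by the pairs in `V`. -/
inductive M (V : List (List ℕ × List ℕ)) : List ℕ → List ℕ → Prop
  | nil : M V [] []
  | cons {a b u v : List ℕ} (h : (a, b) ∈ V) (hm : M V u v) : M V (a ++ u) (b ++ v)

variable {V : List (List ℕ × List ℕ)}

theorem M.append {u v u' v' : List ℕ} (h : M V u v) (h' : M V u' v') :
    M V (u ++ u') (v ++ v') := by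
  induction h with
  | nil => exact h'
  | cons h _ ih =>
    rw [List.append_assoc, List.append_assoc]
    exact M.cons h ih

theorem M.single {a b : List ℕ} (h : (a, b) ∈ V) : M V a b := by
  simpa using M.cons h M.nil

/-- The bound for the lengths of the words in `V`. -/
def wt (V : List (List ℕ × List ℕ)) : ℕ :=
  V.foldr (fun p s => (p.1.length + p.2.length) + s) 0

theorem le_wt {a b : List ℕ} (h : (a, b) ∈ V) : a.length + b.length ≤ wt V := by
  induction V with
  | nil => simp at h
  | cons p V ih =>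
    rcases List.mem_cons.1 h with rfl | h
    · simp [wt]
    · have := ih h
      simp only [wt, List.foldr_cons] at this ⊢
      omega

/-- cutting on the left -/
theorem M.cutL {p w : List ℕ} (h : M V p w) : ∀ {x z : List ℕ}, p = x ++ z →
    ∃ x1 x2 w1 w2, x = x1 ++ x2 ∧ w = w1 ++ w2 ∧ M V x1 w1 ∧ M V (x2 ++ z) w2 ∧
      x2.length ≤ wt V := by
  induction h with
  | nil =>
    intro x z h
    have h := h.symm
    rw [List.append_eq_nil_iff] at h
    obtain ⟨rfl, rfl⟩ := h
    exact ⟨[], [], [], [], rfl, rfl, M.nil, M.nil, by simp⟩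
  | @cons a b u v hab hm ih =>
    intro x z h
    rcases List.append_eq_append_iff.1 h with ⟨t, h1, h2⟩ | ⟨t, h1, h2⟩
    · -- x = a ++ t
      obtain ⟨x1, x2, w1, w2, e1, e2, m1, m2, hl⟩ := ih h2
      refine ⟨a ++ x1, x2, b ++ w1, w2, ?_, ?_, M.cons hab m1, m2, hl⟩
      · rw [h1, e1, List.append_assoc]
      · rw [e2, List.append_assoc]
    · -- a = x ++ t
      refine ⟨[], x, [], b ++ v, rfl, rfl, M.nil, ?_, ?_⟩
      · rw [← h]
        exact M.cons hab hm
      · have := le_wt hab
        rw [h1, List.length_append] at this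
        omega

/-- cutting on the right -/
theorem M.cutR {p w : List ℕ} (h : M V p w) : ∀ {z y : List ℕ}, p = z ++ y →
    ∃ y1 y2 w1 w2, y = y1 ++ y2 ∧ w = w1 ++ w2 ∧ M V (z ++ y1) w1 ∧ M V y2 w2 ∧
      y1.length ≤ wt V := by
  induction h with
  | nil =>
    intro z y h
    have h := h.symm
    rw [List.append_eq_nil_iff] at h
    obtain ⟨rfl, rfl⟩ := h
    exact ⟨[], [], [], [], rfl, rfl, M.nil, M.nil, by simp⟩
  | @cons a b u v hab hm ih =>
    intro z y h
    rcases List.append_eq_append_iff.1 h with ⟨t, h1, h2⟩ | ⟨t, h1, h2⟩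
    · -- z = a ++ t
      obtain ⟨y1, y2, w1, w2, e1, e2, m1, m2, hl⟩ := ih h2
      refine ⟨y1, y2, b ++ w1, w2, e1, ?_, ?_, m2, hl⟩
      · rw [e2, List.append_assoc]
      · rw [h1, List.append_assoc]
        exact M.cons hab m1
    · -- a = z ++ t, y = t ++ u
      refine ⟨t, u, b, v, h2, rfl, ?_, hm, ?_⟩
      · rw [← h1]
        exact M.single hab
      · have := le_wt hab
        rw [h1, List.length_append] at this
        omega

/-- Products of at most `k + 1` generators. -/
def prods (V : List (List ℕ × List ℕ)) : ℕ → List (List ℕ × List ℕ)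
  | 0 => V
  | k + 1 => V ++ V.flatMap fun x => (prods V k).map fun g => (x.1 ++ g.1, x.2 ++ g.2)

theorem M_of_mem_prods {k : ℕ} : ∀ {u v : List ℕ}, (u, v) ∈ prods V k → M V u v := by
  induction k with
  | zero => intro u v h; exact M.single h
  | succ k ih =>
    intro u v h
    rw [prods, List.mem_append, List.mem_flatMap] at h
    rcases h with h | ⟨⟨a, b⟩, hx, hg⟩
    · exact M.single h
    · rw [List.mem_map] at hg
      obtain ⟨⟨c, d⟩, hg, e⟩ := hg
      simp only [Prod.mk.injEq] at e
      obtain ⟨rfl, rfl⟩ := e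
      exact M.cons hx (ih hg)

/-- `V` consists of pairs of nonempty words over the alphabets `{0, ..., m}`, `{0, ..., n}`. -/
def Clean (m n : ℕ) (V : List (List ℕ × List ℕ)) : Prop :=
  ∀ a b, (a, b) ∈ V → a ≠ [] ∧ b ≠ [] ∧ (∀ i ∈ a, i < m + 1) ∧ (∀ i ∈ b, i < n + 1)

variable {m n : ℕ}

theorem M.valid (hV : Clean m n V) {u v : List ℕ} (h : M V u v) :
    (∀ i ∈ u, i < m + 1) ∧ (∀ i ∈ v, i < n + 1) ∧ (u = [] ↔ v = []) := by
  induction h with
  | nil => simp
  | @cons a b u v hab hm ih =>
    obtain ⟨h1, h2, h3, h4⟩ := hV _ _ hab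
    refine ⟨?_, ?_, by simp [h1, h2]⟩
    · intro i hi
      rcases List.mem_append.1 hi with hi | hi
      · exact h3 i hi
      · exact ih.1 i hi
    · intro i hi
      rcases List.mem_append.1 hi with hi | hi
      · exact h4 i hi
      · exact ih.2.1 i hi

theorem prods_mono {k l : ℕ} (h : k ≤ l) : ∀ p ∈ prods V k, p ∈ prods V l := by
  induction k generalizing l with
  | zero =>
    intro p hp
    cases l with
    | zero => exact hp
    | succ l => exact List.mem_append_left _ hp
  | succ k ih =>
    intro p hp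
    obtain ⟨l, rfl⟩ : ∃ l', l = l' + 1 := ⟨l - 1, by omega⟩
    rw [prods, List.mem_append, List.mem_flatMap] at hp ⊢
    rcases hp with hp | ⟨x, hx, hg⟩
    · exact Or.inl hp
    · refine Or.inr ⟨x, hx, ?_⟩
      rw [List.mem_map] at hg ⊢
      obtain ⟨g, hg, e⟩ := hg
      exact ⟨g, ih (by omega) g hg, e⟩

theorem mem_prods_of_M (hV : Clean m n V) {u v : List ℕ} (h : M V u v) :
    ∀ {k : ℕ}, u ≠ [] → u.length ≤ k → (u, v) ∈ prods V k := by
  induction h with
  | nil => intro k h; exact absurd rfl h
  | @cons a b u v hab hm ih =>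
    intro k _ hl
    obtain ⟨h1, -, -, -⟩ := hV _ _ hab
    have ha : 1 ≤ a.length := by
      rcases a with _ | ⟨x, a⟩
      · exact absurd rfl h1
      · simp
    rw [List.length_append] at hl
    obtain ⟨k, rfl⟩ : ∃ k', k = k' + 1 := ⟨k - 1, by omega⟩
    rw [prods, List.mem_append, List.mem_flatMap]
    by_cases hu : u = []
    · have hv := (hm.valid hV).2.2.1 hu
      subst hu hv
      simp only [List.append_nil]
      exact Or.inl hab
    · refine Or.inr ⟨(a, b), hab, ?_⟩
      rw [List.mem_map]
      exact ⟨(u, v), ih hu (by omega), rfl⟩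

/-- All letters occur as coordinates of generating pairs. -/
def Letters (m n : ℕ) (V : List (List ℕ × List ℕ)) : Prop :=
  (∀ i < m + 1, ∃ p ∈ V, p.1 = [i]) ∧ (∀ j < n + 1, ∃ p ∈ V, p.2 = [j])

/-- Difunctionality for lists. -/
def LDifun (V : List (List ℕ × List ℕ)) : Prop :=
  ∀ u v u' v', u ≠ [] → M V u v → u' ≠ [] → M V u' v → M V u' v' → M V u v'

/-- The finite check. -/
def Check (V : List (List ℕ × List ℕ)) (N : ℕ) : Prop :=
  ∀ p ∈ prods V N, ∀ q ∈ prods V N, ∀ r ∈ prods V N, p.2 = q.2 → q.1 = r.1 →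
    ∃ s ∈ prods V (N * wt V + wt V), s = (p.1, r.2)

theorem length_prods {k : ℕ} : ∀ p ∈ prods V k, p.1.length + p.2.length ≤ k * wt V + wt V := by
  induction k with
  | zero =>
    rintro ⟨a, b⟩ hp
    have := le_wt (V := V) hp
    simpa using this
  | succ k ih =>
    rintro ⟨a, b⟩ hp
    rw [prods, List.mem_append, List.mem_flatMap] at hp
    rcases hp with hp | ⟨⟨c, d⟩, hx, hg⟩
    · have := le_wt hp
      simp only
      nlinarith [Nat.zero_le (k * wt V), Nat.zero_le (wt V)]
    · rw [List.mem_map] at hg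
      obtain ⟨⟨e, f⟩, hg, he⟩ := hg
      simp only [Prod.mk.injEq] at he
      obtain ⟨rfl, rfl⟩ := he
      have h1 := ih _ hg
      have h2 := le_wt hx
      simp only [List.length_append] at h1 ⊢
      nlinarith

theorem prods_ne_nil (hV : Clean m n V) {k : ℕ} : ∀ p ∈ prods V k, p.1 ≠ [] ∧ p.2 ≠ [] := by
  have key : ∀ p ∈ prods V k, p.1 ≠ [] := by
    cases k with
    | zero =>
      rintro ⟨a, b⟩ hp
      exact (hV _ _ hp).1
    | succ k =>
      rintro ⟨a, b⟩ hp
      rw [prods, List.mem_append, List.mem_flatMap] at hp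
      rcases hp with hp | ⟨⟨c, d⟩, hx, hg⟩
      · exact (hV _ _ hp).1
      · rw [List.mem_map] at hg
        obtain ⟨⟨e, f⟩, hg, he⟩ := hg
        simp only [Prod.mk.injEq] at he
        obtain ⟨rfl, rfl⟩ := he
        have := (hV _ _ hx).1
        simp [this]
  rintro ⟨a, b⟩ hp
  refine ⟨key _ hp, ?_⟩
  have h1 := (M_of_mem_prods hp).valid hV
  intro h2
  exact key _ hp (h1.2.2.2 h2)

theorem check_of_difun (hV : Clean m n V) (h : LDifun V) (N : ℕ) : Check V N := by
  rintro ⟨u, v⟩ hp ⟨u', v1⟩ hq ⟨u1, v'⟩ hr h1 h2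
  simp only at h1 h2
  subst h1 h2
  have hu : u ≠ [] := (prods_ne_nil hV _ hp).1
  have hu' : u' ≠ [] := (prods_ne_nil hV _ hq).1
  have hl := length_prods _ hp
  simp only at hl
  exact ⟨(u, v'), mem_prods_of_M hV (h u v u' v' hu (M_of_mem_prods hp) hu' (M_of_mem_prods hq)
    (M_of_mem_prods hr)) hu (by omega), rfl⟩

/-- Every word over the first alphabet has a partner. -/
theorem exists_right (hL : Letters m n V) : ∀ x : List ℕ, (∀ i ∈ x, i < m + 1) → ∃ v, M V x v := by
  intro x
  induction x with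
  | nil => intro _; exact ⟨[], M.nil⟩
  | cons i x ih =>
    intro h
    obtain ⟨v, hv⟩ := ih fun j hj => h j (List.mem_cons_of_mem _ hj)
    obtain ⟨⟨a, b⟩, hp, ha⟩ := hL.1 i (h i List.mem_cons_self)
    simp only at ha
    subst ha
    exact ⟨b ++ v, M.cons hp hv⟩

/-- The canonical partner of a word over the second alphabet. -/
theorem exists_left (hL : Letters m n V) : ∃ β : List ℕ → List ℕ,
    (∀ y y', β (y ++ y') = β y ++ β y') ∧ β [] = [] ∧
    ∀ y, (∀ i ∈ y, i < n + 1) → M V (β y) y ∧ (β y).length ≤ y.length * wt V := by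
  have h : ∀ j, j < n + 1 → ∃ a, (a, [j]) ∈ V := by
    intro j hj
    obtain ⟨⟨a, b⟩, hp, hb⟩ := hL.2 j hj
    simp only at hb
    subst hb
    exact ⟨a, hp⟩
  choose! f hf using h
  refine ⟨fun y => y.flatMap f, fun y y' => List.flatMap_append, rfl, ?_⟩
  intro y
  induction y with
  | nil => intro _; exact ⟨M.nil, by simp⟩
  | cons i y ih =>
    intro h
    obtain ⟨hu, hl⟩ := ih fun j hj => h j (List.mem_cons_of_mem _ hj)
    have hp := hf i (h i List.mem_cons_self)
    have hw := le_wt hp
    refine ⟨M.cons hp hu, ?_⟩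
    simp only [List.flatMap_cons, List.length_append, List.length_cons] at hl ⊢
    nlinarith

/-- Contextual equivalence. -/
def CEq (V : List (List ℕ × List ℕ)) (u u' : List ℕ) : Prop :=
  ∀ x y w, M V (x ++ u ++ y) w ↔ M V (x ++ u' ++ y) w

theorem CEq.append {a a' b b' : List ℕ} (h : CEq V a a') (h' : CEq V b b') :
    CEq V (a ++ b) (a' ++ b') := by
  intro x y w
  have h1 := h x (b ++ y) w
  have h2 := h' (x ++ a') y w
  simp only [List.append_assoc] at h1 h2 ⊢
  exact h1.trans h2

/-- The bound for the finite check. -/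
def bnd (V : List (List ℕ × List ℕ)) : ℕ := 3 * wt V + wt V * wt V

/-- local version of contextual equivalence implies the global one -/
theorem local_to_global {p r : List ℕ}
    (h : ∀ x y w, x.length ≤ wt V → y.length ≤ wt V → M V (x ++ p ++ y) w →
      M V (x ++ r ++ y) w) :
    ∀ x y w, M V (x ++ p ++ y) w → M V (x ++ r ++ y) w := by
  intro x y w hM
  obtain ⟨x1, x2, w1, w2, rfl, rfl, m1, m2, l1⟩ := hM.cutL (x := x) (z := p ++ y)
    (List.append_assoc _ _ _)
  rw [← List.append_assoc] at m2
  obtain ⟨y1, y2, w3, w4, rfl, rfl, m3, m4, l2⟩ := m2.cutR rfl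
  have := h x2 y1 w3 l1 l2 m3
  have := m1.append (this.append m4)
  simpa [List.append_assoc] using this

theorem difun_of_check (hV : Clean m n V) (hL : Letters m n V) {N : ℕ} (hN : bnd V ≤ N)
    (h : Check V N) : LDifun V := by
  -- the finite check for `M`
  have key : ∀ u v u' v', u ≠ [] → u'≠ [] → u.length ≤ bnd V → u'.length ≤ bnd V → M V u v →
      M V u' v → M V u' v' → M V u v' := by
    intro u v u' v' h0 h0' h1 h2 h3 h4 h5
    obtain ⟨s, hs, e⟩ := h _ (mem_prods_of_M hV h3 h0 (h1.trans hN)) _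
      (mem_prods_of_M hV h4 h0' (h2.trans hN)) _ (mem_prods_of_M hV h5 h0' (h2.trans hN)) rfl rfl
    subst e
    exact M_of_mem_prods hs
  -- contextual equivalence of `p` and `r` when `(p, q)` is a generator and `(r, q)` a product
  have ceq : ∀ p q r, (p, q) ∈ V → M V r q → r.length ≤ q.length * wt V → CEq V p r := by
    intro p q r hp hr hl
    obtain ⟨hp1, hq1, -, -⟩ := hV _ _ hp
    have hr1 : r ≠ [] := fun h => hq1 ((hr.valid hV).2.2.1 h)
    have hw := le_wt hp
    have hl2 : r.length ≤ wt V * wt V := hl.trans (Nat.mul_le_mul_right _ (by omega))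
    have aux : ∀ x y w, x.length ≤ wt V → y.length ≤ wt V →
        (M V (x ++ p ++ y) w → M V (x ++ r ++ y) w) ∧
        (M V (x ++ r ++ y) w → M V (x ++ p ++ y) w) := by
      intro x y w hx hy
      have l1 : (x ++ p ++ y).length ≤ bnd V := by
        simp only [List.length_append, bnd]
        nlinarith [Nat.zero_le (wt V * wt V)]
      have l2 : (x ++ r ++ y).length ≤ bnd V := by
        simp only [List.length_append, bnd]
        omega
      have n1 : x ++ p ++ y ≠ [] := by simp [hp1]
      have n2 : x ++ r ++ y ≠ [] := by simp [hr1]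
      constructor
      · intro hM
        have hval := (hM.valid hV).1
        obtain ⟨v1, hv1⟩ := exists_right hL x fun i hi => hval i (by simp [hi])
        obtain ⟨v2, hv2⟩ := exists_right hL y fun i hi => hval i (by simp [hi])
        exact key _ (v1 ++ q ++ v2) _ _ n2 n1 l2 l1 ((hv1.append hr).append hv2)
          ((hv1.append (M.single hp)).append hv2) hM
      · intro hM
        have hval := (hM.valid hV).1
        obtain ⟨v1, hv1⟩ := exists_right hL x fun i hi => hval i (by simp [hi])
        obtain ⟨v2, hv2⟩ := exists_right hL y fun i hi => hval i (by simp [hi])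
        exact key _ (v1 ++ q ++ v2) _ _ n1 n2 l1 l2 ((hv1.append (M.single hp)).append hv2)
          ((hv1.append hr).append hv2) hM
    intro x y w
    exact ⟨local_to_global (fun x y w hx hy => (aux x y w hx hy).1) x y w,
      local_to_global (fun x y w hx hy => (aux x y w hx hy).2) x y w⟩
  -- every word is equivalent to the canonical partner of its partner
  obtain ⟨β, hβ1, hβ2, hβ3⟩ := exists_left hL
  have main : ∀ u v, M V u v → CEq V u (β v) := by
    intro u v h
    induction h with
    | nil =>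
      rw [hβ2]
      exact fun x y w => Iff.rfl
    | @cons a b u v hab hm ih =>
      rw [hβ1]
      have hb := hβ3 b (hV _ _ hab).2.2.2
      exact (ceq a b (β b) hab hb.1 hb.2).append ih
  intro u v u' v' hu h1 hu' h2 h3
  have e1 := main u v h1 [] [] v'
  have e2 := main u' v h2 [] [] v'
  simp only [List.nil_append, List.append_nil] at e1 e2
  exact e1.2 (e2.1 h3)

end Pool.Agent.Q221.FibProd
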